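import Pool.Agent.Q5.Jac.Main
import Pool.Agent.Q5.Jac.Uniq

/-!
# MP_08d8ea_nt: an even Jacobian order

For `p = 11`, `k = 2`, `a = 8` and `l = 199` the number `a = 8` is not an eleventh power modulo `l`,
but the Jacobian of `y¹¹ = x (8 - x)²` has `332998454272 = 2¹⁰ * 325193803` points over `𝔽₁₉₉`.
-/

set_option autoImplicit false

namespace Pool.Agent.Results.MP_08d8ea_nt.EvenJacobian

open Finset

/-- The number of points over the finite field `E` (of characteristic prime to `p` and `a`) of the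
smooth projective model of `y ^ p = x (a - x) ^ k`: the affine solutions and one point at infinity.
(The affine curve is singular at most at `(a, 0)`, where, `k` being prime to `p`, it has exactly one
place; there is one place at infinity since `k + 1` is prime to `p`.) -/
noncomputable def numPoints (p k : ℕ) (a : ℤ) (E : Type) [Field E] : ℕ :=
  Nat.card {P : E × E // P.2 ^ p = P.1 * ((a : E) - P.1) ^ k} + 1

/-- `α` is the family of the Frobenius eigenvalues over `𝔽_l`, that is of the reciprocal roots of the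
numerator `P(T) = ∏ (1 - α_i T)` of the zeta function, of degree `2 g = p - 1`: for every `n ≥ 1` the
curve has `l ^ n + 1 - ∑ α_i ^ n` points over the field with `l ^ n` elements. -/
def IsFrobenius (p k : ℕ) (a : ℤ) (l : ℕ) (α : Fin (p - 1) → ℂ) : Prop :=
  ∀ n : ℕ, 1 ≤ n → ∀ (E : Type) [Field E], Nat.card E = l ^ n →
    (numPoints p k a E : ℂ) = (l : ℂ) ^ n + 1 - ∑ i, α i ^ n

/-- `m` is the order of the group of the `𝔽_l`-points of the Jacobian: `m = P(1) = ∏ (1 - α_i)`. -/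
def IsJacobianOrder (p k : ℕ) (a : ℤ) (l : ℕ) (m : ℤ) : Prop :=
  ∃ α : Fin (p - 1) → ℂ, IsFrobenius p k a l α ∧ (m : ℂ) = ∏ i, (1 - α i)

theorem eight_ne : ((8 : ℤ) : ZMod 199) ≠ 0 := by decide

theorem eight_pow : ((8 : ℤ) : ZMod 199) ^ 18 ≠ 1 := by decide

/-- There are a prime `p > 5`, an even integer `a`, free of `p`-th powers, an exponent
`k ∈ {2, …, p - 3}`, `k ≠ (p - 1)/2`, and a prime `l ≡ 1 (mod p)`, not dividing `a`, such that `a` is
not a `p`-th power modulo `l`, for which the order of `J(𝔽_l)` exists, is unique, and is even. -/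
theorem result : ∃ (p k : ℕ) (a : ℤ) (l : ℕ),
    p.Prime ∧ 5 < p ∧ Even a ∧ (∀ q : ℕ, q.Prime → ¬ ((q : ℤ) ^ p ∣ a)) ∧
    2 ≤ k ∧ k ≤ p - 3 ∧ k ≠ (p - 1) / 2 ∧
    l.Prime ∧ l % p = 1 ∧ ¬ ((l : ℤ) ∣ a) ∧ (¬ ∃ b : ZMod l, b ^ p = (a : ZMod l)) ∧
    ∃ m : ℤ, IsJacobianOrder p k a l m ∧ (∀ m', IsJacobianOrder p k a l m' → m' = m) ∧ Even m := by
  refine ⟨11, 2, 8, 199, by norm_num, by norm_num, by decide, ?_, by norm_num, by norm_num,
    by norm_num, by norm_num, by norm_num, by norm_num, ?_, 332998454272, ?_, ?_, by decide⟩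
  · intro q hq h
    have h1 : (q : ℤ) ^ 11 ≤ 8 := Int.le_of_dvd (by norm_num) h
    have h2 : (2 : ℤ) ≤ q := by exact_mod_cast hq.two_le
    have h3 : (2 : ℤ) ^ 11 ≤ (q : ℤ) ^ 11 := pow_le_pow_left₀ (by norm_num) h2 11
    have : (2 : ℤ) ^ 11 ≤ 8 := h3.trans h1
    norm_num at this
  · rintro ⟨b, hb⟩
    have hfact : Fact (Nat.Prime 199) := ⟨by norm_num⟩
    have h1 : b ≠ 0 := by
      rintro rfl
      rw [zero_pow (by norm_num)] at hb
      exact eight_ne hb.symm
    have h2 : b ^ 198 = 1 := ZMod.pow_card_sub_one_eq_one h1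
    have h3 : (((8 : ℤ) : ZMod 199)) ^ 18 = 1 := by
      rw [← hb, ← pow_mul, h2]
    exact eight_pow h3
  · obtain ⟨χ, hχ, hprod⟩ := Pool.Agent.Q5.Jac.main_num
    refine ⟨Pool.Agent.Q5.Jac.alpha 11 2 8 χ, ?_, ?_⟩
    · intro n hn E _ hE
      exact Pool.Agent.Q5.Jac.weil (by norm_num) (by norm_num) (by norm_num) 8 eight_ne χ hχ n hn
        E hE
    · rw [hprod]; norm_num
  · rintro m' ⟨β, hβ, hm'⟩
    obtain ⟨χ, hχ, hprod⟩ := Pool.Agent.Q5.Jac.main_num
    have hu := Pool.Agent.Q5.Jac.prod_unique β (Pool.Agent.Q5.Jac.alpha 11 2 8 χ) (by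
      intro n hn
      have hfact : Fact (Nat.Prime 199) := ⟨by norm_num⟩
      have hcard : Nat.card (GaloisField 199 n) = 199 ^ n := GaloisField.card 199 n (by omega)
      have h1 := hβ n hn (GaloisField 199 n) hcard
      have h2 := Pool.Agent.Q5.Jac.weil (p := 11) (k := 2) (l := 199) (by norm_num) (by norm_num)
        (by norm_num) 8 eight_ne χ hχ n hn (GaloisField 199 n) hcard
      have h3 : (numPoints 11 2 8 (GaloisField 199 n) : ℂ) =
        (Pool.Agent.Q5.Jac.numPoints 11 2 8 (GaloisField 199 n) : ℂ) := rfl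
      rw [h3, h2] at h1
      linear_combination h1)
    rw [hu, hprod] at hm'
    exact_mod_cast hm'

end Pool.Agent.Results.MP_08d8ea_nt.EvenJacobian
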